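import Pool.Agent.Helper794_ED.Dens

/-!
# Existentially definable sets of integers of positive upper Banach density

The integers are existentially definable in `ℚ` if and only if some existentially definable set of
integers has positive upper Banach density. So if the integers are not existentially definable, then
all existentially definable sets of integers have upper Banach density zero.
-/

set_option autoImplicit false

namespace Pool.Agent.Results.MP_28f2cb_lc.BanachDensity

open MvPolynomial

/-- `A` is existentially definable in `ℚ`: there is one polynomial `F` with integer coefficients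
such that `q` is in `A` if and only if `F(q, y) = 0` has a rational solution `y`. -/
def ExDef (A : Set ℚ) : Prop :=
  ∃ (n : ℕ) (F : MvPolynomial (Fin (n + 1)) ℤ), ∀ q : ℚ, q ∈ A ↔
    ∃ y : Fin n → ℚ, aeval (Fin.cons q y : Fin (n + 1) → ℚ) F = 0

/-- The set of integers. -/
def Integers : Set ℚ := {x | ∃ z : ℤ, x = z}

/-- The integers in `A` have positive upper Banach density: for some `c > 0` there are arbitrarily
long intervals of length `L` with at least `c L` elements of `A` among the integers in them. -/
def PositiveBanachDensity (A : Set ℚ) : Prop :=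
  ∃ c : ℝ, 0 < c ∧ ∀ L₀ : ℕ, ∃ L : ℕ, L₀ ≤ L ∧ ∃ x : ℤ,
    c * L ≤ ({a : ℤ | x ≤ a ∧ a < x + L ∧ (a : ℚ) ∈ A}.ncard : ℝ)

theorem result :
    ExDef Integers ↔ ∃ A : Set ℚ, ExDef A ∧ A ⊆ Integers ∧ PositiveBanachDensity A := by
  constructor
  · intro h
    refine ⟨Integers, h, subset_rfl, 1, one_pos, fun L₀ => ⟨L₀, le_rfl, 0, ?_⟩⟩
    have h1 : {a : ℤ | 0 ≤ a ∧ a < 0 + (L₀ : ℤ) ∧ (a : ℚ) ∈ Integers} =
        ((Finset.Ico (0 : ℤ) L₀ : Finset ℤ) : Set ℤ) := by
      ext a
      rw [Finset.coe_Ico, Set.mem_Ico, zero_add]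
      constructor
      · rintro ⟨h1, h2, -⟩
        exact ⟨h1, h2⟩
      · rintro ⟨h1, h2⟩
        exact ⟨h1, h2, a, rfl⟩
    rw [h1, Set.ncard_coe_finset, Int.card_Ico, one_mul]
    simp
  · rintro ⟨A, hA, hZ, hB⟩
    exact Pool.Agent.Helper794ED.banach hA (fun x hx => hZ hx) hB

end Pool.Agent.Results.MP_28f2cb_lc.BanachDensity
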