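import Pool.Agent.Helper794_ED.Values

/-!
# A density criterion for the existential definability of the integers

The integers are existentially definable in `ℚ` if and only if there are an existentially definable
set `A` of rational numbers with small denominators (at most `exp (C (1 + log max(1, |x|)) ^ δ)`,
with `δ < 1 / 2`) and a polynomial `P` with integer coefficients such that the sums of boundedly
many values of `P` which are natural numbers, at elements of `A` of polynomial size, have positive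
lower density.
-/

set_option autoImplicit false

namespace Pool.Agent.Results.MP_28f2cb_lc.DensityCriterion

open MvPolynomial

/-- `A` is existentially definable in `ℚ`: there is one polynomial `F` with integer coefficients
such that `q` is in `A` if and only if `F(q, y) = 0` has a rational solution `y`. -/
def ExDef (A : Set ℚ) : Prop :=
  ∃ (n : ℕ) (F : MvPolynomial (Fin (n + 1)) ℤ), ∀ q : ℚ, q ∈ A ↔
    ∃ y : Fin n → ℚ, aeval (Fin.cons q y : Fin (n + 1) → ℚ) F = 0

/-- The set of integers. -/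
def Integers : Set ℚ := {x | ∃ z : ℤ, x = z}

/-- The denominators of the elements `x` of `A` are at most `exp (C (1 + log max(1, |x|)) ^ δ)`,
where `δ < 1 / 2`. -/
def SmallDenominators (A : Set ℚ) : Prop :=
  ∃ C δ : ℝ, δ < 1 / 2 ∧ ∀ x ∈ A, Real.log x.den ≤ C * (1 + Real.log (max 1 |(x : ℝ)|)) ^ δ

/-- The natural numbers `s` which are values of `P` at elements of `A` whose squares are at most
`(2 + s ^ 2) ^ κ`. -/
def Values (A : Set ℚ) {m : ℕ} (P : MvPolynomial (Fin m) ℤ) (κ : ℕ) : Set ℕ :=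
  {s | ∃ a : Fin m → ℚ, (∀ i, a i ∈ A ∧ a i ^ 2 ≤ (2 + (s : ℚ) ^ 2) ^ κ) ∧ aeval a P = (s : ℚ)}

/-- For some `h` the positive integers which are sums of at most `h` elements of `S` have positive
lower density. -/
def DenseSums (S : Set ℕ) : Prop :=
  ∃ (h : ℕ) (c : ℝ) (N₀ : ℕ), 0 < c ∧ ∀ N : ℕ, N₀ ≤ N →
    c * N ≤ ({n : ℕ | 1 ≤ n ∧ n ≤ N ∧
      ∃ l : List ℕ, l.length ≤ h ∧ (∀ a ∈ l, a ∈ S) ∧ l.sum = n}.ncard : ℝ)

theorem result :
    ExDef Integers ↔ ∃ A : Set ℚ, ExDef A ∧ SmallDenominators A ∧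
      ∃ (m : ℕ) (P : MvPolynomial (Fin m) ℤ) (κ : ℕ), DenseSums (Values A P κ) := by
  constructor
  · intro h
    refine ⟨Integers, h, ?_, 1, X 0, 1, 1, 1, 0, one_pos, fun N _ => ?_⟩
    · refine ⟨0, 0, by norm_num, ?_⟩
      rintro x ⟨z, rfl⟩
      rw [Rat.den_intCast, Nat.cast_one, Real.log_one, zero_mul]
    · have h1 : {n : ℕ | 1 ≤ n ∧ n ≤ N ∧ ∃ l : List ℕ, l.length ≤ 1 ∧
          (∀ a ∈ l, a ∈ Values Integers (X 0 : MvPolynomial (Fin 1) ℤ) 1) ∧ l.sum = n} =
          ((Finset.Icc 1 N : Finset ℕ) : Set ℕ) := by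
        ext n
        rw [Finset.coe_Icc, Set.mem_Icc]
        constructor
        · rintro ⟨h1, h2, -⟩
          exact ⟨h1, h2⟩
        · rintro ⟨h1, h2⟩
          refine ⟨h1, h2, [n], le_rfl, ?_, by simp⟩
          intro a _
          refine ⟨fun _ => a, fun _ => ⟨⟨a, by simp⟩, ?_⟩, ?_⟩
          · rw [pow_one]
            linarith
          · rw [aeval_X]
      rw [h1, Set.ncard_coe_finset, Nat.card_Icc, one_mul]
      simp
  · rintro ⟨A, hA, hs, m, P, κ, hd⟩
    exact Pool.Agent.Helper794ED.values hA hs P κ hd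

end Pool.Agent.Results.MP_28f2cb_lc.DensityCriterion
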